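import Mathlib

/-!
# Coefficients of sums of powers, and sums of powers of two
-/

set_option autoImplicit false

namespace Pool.Agent.Q180.KB

lemma coef_aux (X m : ℕ) (hX : 0 < X) (E : List ℕ) : ∃ r q a : ℕ,
    (E.map (X ^ ·)).sum = r + E.count m * X ^ m + q * X ^ (m + 1) ∧ r * X ≤ a * X ^ m ∧
      a ≤ E.length := by
  induction E with
  | nil => exact ⟨0, 0, 0, by simp, by simp, by simp⟩
  | cons e E ih =>
    obtain ⟨r, q, a, h1, h2, h3⟩ := ih
    rw [List.map_cons, List.sum_cons, h1, List.count_cons, List.length_cons]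
    rcases lt_trichotomy e m with h | h | h
    · refine ⟨r + X ^ e, q, a + 1, ?_, ?_, by omega⟩
      · have : (e == m) = false := by simp; omega
        rw [this]
        simp only [Bool.false_eq_true, if_false, add_zero]
        ring
      · have : X ^ e * X ≤ X ^ m := by
          rw [← pow_succ]
          exact Nat.pow_le_pow_right hX (by omega)
        nlinarith
    · subst h
      refine ⟨r, q, a, ?_, h2, by omega⟩
      simp
      ring
    · refine ⟨r, q + X ^ (e - (m + 1)), a, ?_, h2, by omega⟩
      have : (e == m) = false := by simp; omega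
      rw [this]
      simp only [Bool.false_eq_true, if_false, add_zero]
      have h4 : X ^ e = X ^ (e - (m + 1)) * X ^ (m + 1) := by
        rw [← pow_add]
        congr 1
        omega
      rw [h4]
      ring

/-- the coefficient of `X ^ m` in a sum of less than `X` powers of `X` -/
lemma coef (X m : ℕ) (E : List ℕ) (hE : E.length < X) :
    (E.map (X ^ ·)).sum / X ^ m % X = E.count m := by
  have hX : 0 < X := by omega
  obtain ⟨r, q, a, h1, h2, h3⟩ := coef_aux X m hX E
  have hr : r < X ^ m := by
    have : r * X < X ^ m * X := by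
      have hp : 0 < X ^ m := Nat.pow_pos hX
      nlinarith
    exact lt_of_mul_lt_mul_right this (Nat.zero_le _)
  rw [h1]
  have h4 : r + E.count m * X ^ m + q * X ^ (m + 1) = r + X ^ m * (E.count m + q * X) := by ring
  rw [h4, Nat.add_mul_div_left _ _ (Nat.pow_pos hX), Nat.div_eq_of_lt hr, zero_add,
    Nat.add_mul_mod_self_right]
  exact Nat.mod_eq_of_lt (lt_of_le_of_lt List.count_le_length hE)

lemma ones (n : ℕ) : ∀ c : ℕ → ℕ, ∑ v ∈ Finset.range n, c v * 2 ^ v = 2 ^ n - 1 →
    n ≤ ∑ v ∈ Finset.range n, c v ∧ (∑ v ∈ Finset.range n, c v = n → ∀ v < n, c v = 1) := by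
  induction n with
  | zero => intro c _; simp
  | succ n ih =>
    intro c hc
    rcases Nat.eq_zero_or_pos n with rfl | hn
    · simp at hc
      refine ⟨by simp [hc], fun _ v hv => ?_⟩
      have : v = 0 := by omega
      rw [this, hc]
    · -- `c 0` is odd
      obtain ⟨n, rfl⟩ : ∃ k, n = k + 1 := ⟨n - 1, by omega⟩
      rw [Finset.sum_range_succ'] at hc
      have h1 : ∑ v ∈ Finset.range (n + 1), c (v + 1) * 2 ^ (v + 1) =
          2 * ∑ v ∈ Finset.range (n + 1), c (v + 1) * 2 ^ v := by
        rw [Finset.mul_sum]
        apply Finset.sum_congr rfl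
        intro v _
        ring
      rw [h1, pow_zero, mul_one] at hc
      have hp : 0 < 2 ^ (n + 1) := by positivity
      have hp2 : 2 ^ (n + 1 + 1) = 2 * 2 ^ (n + 1) := by ring
      obtain ⟨y, hy⟩ : ∃ y, c 0 = 2 * y + 1 := ⟨c 0 / 2, by omega⟩
      have h2 := ih (fun v => if v = 0 then c 1 + y else c (v + 1)) (by
        rw [Finset.sum_range_succ']
        simp only [Nat.add_eq_zero_iff, one_ne_zero, and_false, if_false, if_true, pow_zero, mul_one]
        rw [Finset.sum_range_succ'] at hc
        simp only [pow_zero, mul_one, zero_add] at hc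
        omega)
      rw [Finset.sum_range_succ'] at h2
      simp only [Nat.add_eq_zero_iff, one_ne_zero, and_false, if_false, if_true] at h2
      rw [Finset.sum_range_succ', Finset.sum_range_succ', zero_add]
      obtain ⟨h3, h4⟩ := h2
      refine ⟨by omega, fun h5 => ?_⟩
      have hy0 : y = 0 := by omega
      have h6 := h4 (by omega)
      intro v hv
      rcases v with _ | v
      · omega
      · have h7 := h6 v (by omega)
        split_ifs at h7 with h8
        · subst h8
          simp only [zero_add]
          omega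
        · exact h7

/-- A list of `n` numbers less than `n` such that the sum of the `2 ^ v` is `2 ^ n - 1` has no
repetition. -/
lemma nodup_of_sum (n : ℕ) (l : List ℕ) (hl : l.length = n) (hlt : ∀ v ∈ l, v < n)
    (hs : (l.map (2 ^ ·)).sum = 2 ^ n - 1) : l.Nodup := by
  classical
  have hsub : l.toFinset ⊆ Finset.range n := by
    intro v hv
    exact Finset.mem_range.2 (hlt v (List.mem_toFinset.1 hv))
  have h1 : ∑ v ∈ Finset.range n, l.count v * 2 ^ v = 2 ^ n - 1 := by
    rw [← hs, Finset.sum_list_map_count]
    simp only [smul_eq_mul]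
    symm
    apply Finset.sum_subset hsub
    intro v _ hv
    rw [List.count_eq_zero_of_not_mem (by simpa using hv), zero_mul]
  have h2 : ∑ v ∈ Finset.range n, l.count v = n := by
    rw [← hl]
    conv_rhs => rw [← List.sum_toFinset_count_eq_length l]
    symm
    rw [hl]
    apply Finset.sum_subset hsub
    intro v _ hv
    exact List.count_eq_zero_of_not_mem (by simpa using hv)
  have h3 := (ones n (fun v => l.count v) h1).2 h2
  rw [List.nodup_iff_count_le_one]
  intro v
  by_cases hv : v < n
  · exact (h3 v hv).le
  · rw [List.count_eq_zero_of_not_mem (fun h => hv (hlt v h))]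
    omega

lemma sum_of_nodup (n : ℕ) (l : List ℕ) (hl : l.length = n) (hlt : ∀ v ∈ l, v < n)
    (hnd : l.Nodup) : (l.map (2 ^ ·)).sum = 2 ^ n - 1 := by
  classical
  have hsub : l.toFinset ⊆ Finset.range n := by
    intro v hv
    exact Finset.mem_range.2 (hlt v (List.mem_toFinset.1 hv))
  have heq : l.toFinset = Finset.range n := by
    apply Finset.eq_of_subset_of_card_le hsub
    rw [Finset.card_range, List.toFinset_card_of_nodup hnd, hl]
  have h1 : (l.map (2 ^ ·)).sum = ∑ v ∈ l.toFinset, 2 ^ v := (List.sum_toFinset _ hnd).symm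
  rw [h1, heq]
  exact Nat.geomSum_eq (le_refl 2) n |>.trans (by norm_num)

end Pool.Agent.Q180.KB
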