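import Pool.Agent.Q180.KB.Coef

/-!
# Lists of walks and their generating numbers
-/

set_option autoImplicit false

namespace Pool.Agent.Q180.KB

/-- the neighbours of `v` -/
def nb (t : List (List ℕ)) (v : ℕ) : List ℕ := t.getD v []

/-- the walks with `j + 1` vertices which start in `v` -/
def walks (t : List (List ℕ)) : ℕ → ℕ → List (List ℕ)
  | 0, v => [[v]]
  | j + 1, v => (nb t v).flatMap fun u => (walks t j u).map (v :: ·)

/-- the table is well-formed -/
def Good (t : List (List ℕ)) : Prop := ∀ l ∈ t, l.Nodup ∧ l.length ≤ 16 ∧ ∀ u ∈ l, u < 16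

instance (t : List (List ℕ)) : Decidable (Good t) := by unfold Good; infer_instance

lemma Good.nb {t : List (List ℕ)} (h : Good t) (v : ℕ) :
    (nb t v).Nodup ∧ (nb t v).length ≤ 16 ∧ ∀ u ∈ nb t v, u < 16 := by
  unfold KB.nb
  by_cases hv : v < t.length
  · rw [List.getD_eq_getElem _ _ hv]
    exact h _ (List.getElem_mem hv)
  · rw [List.getD_eq_default _ _ (by omega)]
    simp

lemma mem_walks (t : List (List ℕ)) (j : ℕ) : ∀ (v : ℕ) (l : List ℕ), l ∈ walks t j v ↔
    l.length = j + 1 ∧ l.getD 0 0 = v ∧ ∀ i < j, l.getD (i + 1) 0 ∈ nb t (l.getD i 0) := by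
  induction j with
  | zero =>
    intro v l
    simp only [walks, List.mem_singleton, zero_add, Nat.not_lt_zero, false_imp_iff, implies_true,
      and_true]
    constructor
    · rintro rfl
      simp
    · rintro ⟨h1, h2⟩
      obtain ⟨a, rfl⟩ := List.length_eq_one_iff.1 h1
      simpa using h2
  | succ j ih =>
    intro v l
    simp only [walks, List.mem_flatMap, List.mem_map]
    constructor
    · rintro ⟨u, hu, l', hl', rfl⟩
      obtain ⟨h1, h2, h3⟩ := (ih u l').1 hl'
      refine ⟨by simp [h1], by simp, ?_⟩
      intro i hi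
      rcases i with _ | i
      · simp only [List.getD_cons_succ, List.getD_cons_zero, h2]
        exact hu
      · simp only [List.getD_cons_succ]
        exact h3 i (by omega)
    · rintro ⟨h1, h2, h3⟩
      rcases l with _ | ⟨w, l'⟩
      · simp at h1
      · simp only [List.getD_cons_zero] at h2
        subst h2
        refine ⟨l'.getD 0 0, ?_, l', (ih _ l').2 ⟨by simpa using h1, rfl, ?_⟩, rfl⟩
        · have := h3 0 (by omega)
          simpa only [List.getD_cons_succ, List.getD_cons_zero] using this
        · intro i hi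
          have := h3 (i + 1) (by omega)
          simpa only [List.getD_cons_succ] using this

lemma nodup_walks {t : List (List ℕ)} (ht : Good t) (j : ℕ) : ∀ v, (walks t j v).Nodup := by
  induction j with
  | zero => intro v; simp [walks]
  | succ j ih =>
    intro v
    simp only [walks]
    rw [List.nodup_flatMap]
    refine ⟨fun u _ => (ih u).map (List.cons_injective), ?_⟩
    refine (ht.nb v).1.imp ?_
    intro a b hab
    simp only [Function.onFun]
    intro l h1 h2
    obtain ⟨l1, h3, rfl⟩ := List.mem_map.1 h1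
    obtain ⟨l2, h4, h5⟩ := List.mem_map.1 h2
    have h6 := List.cons_injective h5
    subst h6
    exact hab (((mem_walks t j a l2).1 h3).2.1.symm.trans ((mem_walks t j b l2).1 h4).2.1)

lemma length_walks {t : List (List ℕ)} (ht : Good t) (j : ℕ) :
    ∀ v, (walks t j v).length ≤ 16 ^ j := by
  induction j with
  | zero => intro v; simp [walks]
  | succ j ih =>
    intro v
    simp only [walks]
    rw [List.length_flatMap]
    have : ∀ x ∈ (nb t v).map (fun u => ((walks t j u).map (v :: ·)).length), x ≤ 16 ^ j := by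
      intro x hx
      obtain ⟨u, _, rfl⟩ := List.mem_map.1 hx
      rw [List.length_map]
      exact ih u
    have h2 := List.sum_le_card_nsmul _ _ this
    rw [List.length_map, smul_eq_mul] at h2
    refine h2.trans ?_
    rw [pow_succ, mul_comm]
    exact Nat.mul_le_mul_left _ (ht.nb v).2.1

/-- the sum of the `2 ^ v` -/
def wt (l : List ℕ) : ℕ := (l.map (2 ^ ·)).sum

/-- the generating number of the walks starting in `v` -/
def val (t : List (List ℕ)) (X j v : ℕ) : ℕ := ((walks t j v).map fun l => X ^ wt l).sum

lemma val_succ (t : List (List ℕ)) (X j v : ℕ) :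
    val t X (j + 1) v = X ^ (2 ^ v) * ((nb t v).map (val t X j)).sum := by
  unfold val
  simp only [walks]
  rw [List.map_flatMap, List.flatMap, List.sum_flatten, List.map_map, ← List.sum_map_mul_left]
  congr 1
  apply List.map_congr_left
  intro u _
  simp only [Function.comp_apply, List.map_map]
  rw [← List.sum_map_mul_left]
  congr 1
  apply List.map_congr_left
  intro l _
  simp only [Function.comp_apply, wt, List.map_cons, List.sum_cons, pow_add]

/-- the computation modulo `M` -/
def f (t : List (List ℕ)) (X M : ℕ) (j : ℕ) : ℕ → ℕ :=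
  Nat.rec (fun v => X ^ (2 ^ v) % M)
    (fun _ ih v => X ^ (2 ^ v) * ((nb t v).foldr (fun u s => ih u + s) 0) % M) j

/-- the number of the walks with 16 vertices of weight 65535, as computed by the kernel -/
def comp (t : List (List ℕ)) : ℕ :=
  (((List.range 16).foldr (fun u s => f t (2 ^ 65) (2 ^ 4259840) 15 u + s) 0) / 2 ^ 4259775) %
    2 ^ 65

lemma foldr_eq (F : ℕ → ℕ) (l : List ℕ) : l.foldr (fun u s => F u + s) 0 = (l.map F).sum := by
  induction l with
  | nil => rfl
  | cons a l ih => rw [List.foldr_cons, List.map_cons, List.sum_cons, ih]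

lemma sum_mod (F G : ℕ → ℕ) (M : ℕ) (h : ∀ u, F u ≡ G u [MOD M]) (l : List ℕ) :
    (l.map F).sum ≡ (l.map G).sum [MOD M] := by
  induction l with
  | nil => rfl
  | cons a l ih =>
    rw [List.map_cons, List.map_cons, List.sum_cons, List.sum_cons]
    exact (h a).add ih

lemma f_mod (t : List (List ℕ)) (X M j : ℕ) : ∀ v, f t X M j v ≡ val t X j v [MOD M] := by
  induction j with
  | zero =>
    intro v
    show X ^ (2 ^ v) % M ≡ _ [MOD M]
    refine (Nat.mod_modEq _ _).trans ?_
    unfold val
    simp [walks, wt]
    rfl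
  | succ j ih =>
    intro v
    show X ^ (2 ^ v) * ((nb t v).foldr (fun u s => f t X M j u + s) 0) % M ≡ _ [MOD M]
    refine (Nat.mod_modEq _ _).trans ?_
    rw [val_succ, foldr_eq]
    exact Nat.ModEq.mul_left _ (sum_mod _ _ _ ih _)

lemma extract (S T Y X M : ℕ) (hM : M = Y * X) (h : S ≡ T [MOD M]) : S / Y % X = T / Y % X := by
  subst hM
  rw [← Nat.mod_mul_right_div_self, ← Nat.mod_mul_right_div_self, h]

/-- all walks with 16 vertices -/
def allWalks (t : List (List ℕ)) : List (List ℕ) := (List.range 16).flatMap (walks t 15)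

lemma comp_eq (t : List (List ℕ)) (ht : Good t) :
    comp t = ((allWalks t).map wt).count 65535 := by
  have hlen : ((allWalks t).map wt).length < 2 ^ 65 := by
    rw [List.length_map]
    unfold allWalks
    rw [List.length_flatMap]
    have : ∀ x ∈ (List.range 16).map (fun u => (walks t 15 u).length), x ≤ 16 ^ 15 := by
      intro x hx
      obtain ⟨u, _, rfl⟩ := List.mem_map.1 hx
      exact length_walks ht 15 u
    have h2 := List.sum_le_card_nsmul _ _ this
    rw [List.length_map, List.length_range, smul_eq_mul] at h2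
    exact lt_of_le_of_lt h2 (by norm_num)
  rw [← coef (2 ^ 65) 65535 _ hlen]
  unfold comp
  rw [foldr_eq]
  have hsum : (((allWalks t).map wt).map ((2 ^ 65) ^ ·)).sum =
      ((List.range 16).map (val t (2 ^ 65) 15)).sum := by
    unfold allWalks val
    rw [List.map_map, List.map_flatMap, List.flatMap, List.sum_flatten, List.map_map]
    rfl
  rw [hsum]
  have e1 : (2 : ℕ) ^ 4259775 = (2 ^ 65) ^ 65535 := by rw [← pow_mul]
  have e2 : (2 : ℕ) ^ 4259840 = 2 ^ 4259775 * 2 ^ 65 := by rw [← pow_add]
  have hmod := sum_mod (f t (2 ^ 65) (2 ^ 4259840) 15) (val t (2 ^ 65) 15) (2 ^ 4259840)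
    (f_mod t _ _ 15) (List.range 16)
  have h3 := extract _ _ _ _ _ e2 hmod
  rw [h3, e1]

end Pool.Agent.Q180.KB
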