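import Pool.Agent.Q180.KB.Defs
import Pool.Agent.Q180.KB.Walk

/-!
# The number of the common words with 16 letters of a board and a swapped board
-/

set_option autoImplicit false

namespace Pool.Agent.Q180.KB

abbrev Cell := Fin 4 × Fin 4

/-- the sequences of cells which correspond to the common words -/
def A (x y : Cell) : Set (Fin 16 → Cell) :=
  {g | Function.Injective g ∧ ∀ (i : ℕ) (h : i + 1 < 16),
    Adj (g ⟨i, by omega⟩) (g ⟨i + 1, h⟩) ∧
      Adj (Equiv.swap x y (g ⟨i, by omega⟩)) (Equiv.swap x y (g ⟨i + 1, h⟩))}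

lemma common_eq (B : Board 4) (x y : Cell) :
    common 16 B ((Equiv.swap x y).trans B) = (A x y).ncard := by
  unfold common
  have hinj : Function.Injective (fun a : Fin 16 → Fin (4 ^ 2) => fun i => B.symm (a i)) := by
    intro a b hab
    funext i
    exact B.symm.injective (congrFun hab i)
  rw [← Set.ncard_image_of_injective _ hinj]
  congr 1
  ext g
  constructor
  · rintro ⟨a, ⟨⟨h1, h2⟩, ⟨-, h3⟩⟩, rfl⟩
    refine ⟨B.symm.injective.comp h1, fun i hi => ⟨h2 i hi, ?_⟩⟩
    have := h3 i hi
    rw [Equiv.symm_trans_apply, Equiv.symm_trans_apply, Equiv.symm_swap] at this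
    exact this
  · rintro ⟨h1, h2⟩
    refine ⟨fun i => B (g i), ⟨⟨B.injective.comp h1, ?_⟩, ⟨B.injective.comp h1, ?_⟩⟩, ?_⟩
    · intro i hi
      rw [Equiv.symm_apply_apply, Equiv.symm_apply_apply]
      exact (h2 i hi).1
    · intro i hi
      rw [Equiv.symm_trans_apply, Equiv.symm_trans_apply, Equiv.symm_swap,
        Equiv.symm_apply_apply, Equiv.symm_apply_apply]
      exact (h2 i hi).2
    · funext i
      exact Equiv.symm_apply_apply _ _

lemma swap_map (σ : Cell ≃ Cell) (x y c : Cell) :
    Equiv.swap (σ x) (σ y) (σ c) = σ (Equiv.swap x y c) := by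
  simp only [Equiv.swap_apply_def, σ.injective.eq_iff]
  split_ifs <;> rfl

lemma A_symm (σ : Cell ≃ Cell) (hσ : ∀ c c', Adj (σ c) (σ c') ↔ Adj c c') (x y : Cell) :
    (A (σ x) (σ y)).ncard = (A x y).ncard := by
  have hinj : Function.Injective (fun g : Fin 16 → Cell => fun i => σ (g i)) := by
    intro a b hab
    funext i
    exact σ.injective (congrFun hab i)
  rw [← Set.ncard_image_of_injective (A x y) hinj]
  congr 1
  ext g
  constructor
  · rintro ⟨h1, h2⟩
    refine ⟨fun i => σ.symm (g i), ⟨σ.symm.injective.comp h1, ?_⟩, ?_⟩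
    · intro i hi
      obtain ⟨h3, h4⟩ := h2 i hi
      constructor
      · rw [← hσ, Equiv.apply_symm_apply, Equiv.apply_symm_apply]
        exact h3
      · rw [← hσ, ← swap_map, ← swap_map, Equiv.apply_symm_apply, Equiv.apply_symm_apply]
        exact h4
    · funext i
      exact Equiv.apply_symm_apply _ _
  · rintro ⟨g, ⟨h1, h2⟩, rfl⟩
    refine ⟨σ.injective.comp h1, fun i hi => ⟨(hσ _ _).2 (h2 i hi).1, ?_⟩⟩
    rw [swap_map, swap_map]
    exact (hσ _ _).2 (h2 i hi).2

/-- the number of a cell -/
def code (c : Cell) : ℕ := 4 * c.1 + c.2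

/-- the cell with the number `m` -/
def dec (m : ℕ) : Cell := (⟨m / 4 % 4, Nat.mod_lt _ (by norm_num)⟩, ⟨m % 4, Nat.mod_lt _ (by norm_num)⟩)

lemma code_dec (m : ℕ) (hm : m < 16) : code (dec m) = m := by
  unfold code dec
  simp only
  omega

lemma code_lt (c : Cell) : code c < 16 := by
  unfold code
  omega

lemma code_inj : Function.Injective code := by
  rintro ⟨a, b⟩ ⟨c, d⟩ h
  unfold code at h
  simp only at h
  ext <;> simp only <;> omega

/-- the table describes the common adjacencies -/
def TableOK (t : List (List ℕ)) (x y : Cell) : Prop := ∀ c c' : Cell,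
  (code c' ∈ nb t (code c)) ↔ (Adj c c' ∧ Adj (Equiv.swap x y c) (Equiv.swap x y c'))

instance (t : List (List ℕ)) (x y : Cell) : Decidable (TableOK t x y) := by
  unfold TableOK; infer_instance

lemma nodup_allWalks {t : List (List ℕ)} (ht : Good t) : (allWalks t).Nodup := by
  unfold allWalks
  rw [List.nodup_flatMap]
  refine ⟨fun u _ => nodup_walks ht 15 u, ?_⟩
  refine (List.nodup_range).imp ?_
  intro a b hab
  simp only [Function.onFun]
  intro l h1 h2
  exact hab (((mem_walks t 15 a l).1 h1).2.1.symm.trans ((mem_walks t 15 b l).1 h2).2.1)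

lemma ncard_eq {t : List (List ℕ)} (ht : Good t) :
    {l : List ℕ | l ∈ allWalks t ∧ wt l = 65535}.ncard =
      ((allWalks t).map wt).count 65535 := by
  classical
  have h : {l : List ℕ | l ∈ allWalks t ∧ wt l = 65535} =
      ↑((allWalks t).filter (fun l => wt l == 65535)).toFinset := by
    ext l
    simp only [Set.mem_setOf_eq, List.coe_toFinset, List.mem_filter, beq_iff_eq]
  rw [h, Set.ncard_coe_finset, List.toFinset_card_of_nodup ((nodup_allWalks ht).filter _),
    List.count, List.countP_map, List.countP_eq_length_filter]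
  rfl

lemma getD_ofFn (g : Fin 16 → Cell) (i : ℕ) (hi : i < 16) :
    (List.ofFn fun i => code (g i)).getD i 0 = code (g ⟨i, hi⟩) := by
  rw [List.getD_eq_getElem _ _ (by rw [List.length_ofFn]; exact hi), List.getElem_ofFn]

theorem A_card {t : List (List ℕ)} {x y : Cell} (ht : Good t) (hT : TableOK t x y) :
    (A x y).ncard = comp t := by
  rw [comp_eq t ht, ← ncard_eq ht]
  have hinj : Function.Injective (fun g : Fin 16 → Cell => List.ofFn fun i => code (g i)) := by
    intro a b hab
    have := List.ofFn_injective hab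
    funext i
    exact code_inj (congrFun this i)
  rw [← Set.ncard_image_of_injective (A x y) hinj]
  congr 1
  ext l
  constructor
  · rintro ⟨g, ⟨h1, h2⟩, rfl⟩
    refine ⟨?_, ?_⟩
    · unfold allWalks
      rw [List.mem_flatMap]
      refine ⟨code (g 0), List.mem_range.2 (code_lt _), (mem_walks t 15 _ _).2 ⟨?_, ?_, ?_⟩⟩
      · exact List.length_ofFn
      · exact getD_ofFn g 0 (by norm_num)
      · intro i hi
        rw [getD_ofFn g (i + 1) (by omega), getD_ofFn g i (by omega)]
        exact (hT _ _).2 (h2 i (by omega))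
    · have := sum_of_nodup 16 (List.ofFn fun i => code (g i)) List.length_ofFn (by
        intro v hv
        obtain ⟨i, rfl⟩ := (List.mem_ofFn' _ _).1 hv
        exact code_lt _) (List.nodup_ofFn.2 (code_inj.comp h1))
      exact this
  · rintro ⟨hl, hw⟩
    unfold allWalks at hl
    obtain ⟨v, hv, hl⟩ := List.mem_flatMap.1 hl
    obtain ⟨h1, h2, h3⟩ := (mem_walks t 15 v l).1 hl
    have hlt : ∀ i < 16, l.getD i 0 < 16 := by
      intro i hi
      rcases i with _ | i
      · rw [h2]
        exact List.mem_range.1 hv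
      · exact (ht.nb _).2.2 _ (h3 i (by omega))
    have hnd : l.Nodup := by
      apply nodup_of_sum 16 l h1 _ hw
      intro v hv
      obtain ⟨i, hi, rfl⟩ := List.getElem_of_mem hv
      have := hlt i (by omega)
      rwa [List.getD_eq_getElem _ _ hi] at this
    refine ⟨fun i => dec (l.getD i 0), ⟨?_, ?_⟩, ?_⟩
    · intro i j hij
      have h4 := congrArg code hij
      simp only [code_dec _ (hlt i i.2), code_dec _ (hlt j j.2)] at h4
      rw [List.getD_eq_getElem _ _ (by omega), List.getD_eq_getElem _ _ (by omega)] at h4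
      exact Fin.ext ((hnd.getElem_inj_iff).1 h4)
    · intro i hi
      apply (hT _ _).1
      rw [code_dec _ (hlt _ hi), code_dec _ (hlt _ (by omega))]
      exact h3 i (by omega)
    · apply List.ext_getElem
      · rw [List.length_ofFn, h1]
      · intro i hi hi'
        rw [List.getElem_ofFn]
        rw [code_dec _ (hlt _ (by omega)), List.getD_eq_getElem _ _ hi']

end Pool.Agent.Q180.KB
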