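import Mathlib

/-!
# Boards, words and corner-side swaps (MP_407208_co): definitions
-/

set_option autoImplicit false

namespace Pool.Agent.Q180.KB

/-- Two cells are adjacent: they are distinct and touch horizontally, vertically or diagonally. -/
def Adj {n : ℕ} (a b : Fin n × Fin n) : Prop :=
  a ≠ b ∧ ((a.1 : ℕ) ≤ b.1 + 1 ∧ (b.1 : ℕ) ≤ a.1 + 1) ∧ ((a.2 : ℕ) ≤ b.2 + 1 ∧ (b.2 : ℕ) ≤ a.2 + 1)

instance {n : ℕ} (a b : Fin n × Fin n) : Decidable (Adj a b) := by unfold Adj; infer_instance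

/-- A board: a bijection from the cells of the `n × n` grid to the `n²` labels. -/
abbrev Board (n : ℕ) := (Fin n × Fin n) ≃ Fin (n ^ 2)

/-- The words with `k` letters: sequences of `k` distinct labels, consecutive ones of which are in
adjacent cells. -/
def words {n : ℕ} (k : ℕ) (B : Board n) : Set (Fin k → Fin (n ^ 2)) :=
  {a | Function.Injective a ∧
    ∀ (i : ℕ) (h : i + 1 < k), Adj (B.symm (a ⟨i, by omega⟩)) (B.symm (a ⟨i + 1, h⟩))}

/-- The number of the words with `k` letters in common. -/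
noncomputable def common {n : ℕ} (k : ℕ) (B B' : Board n) : ℕ := (words k B ∩ words k B').ncard

/-- Two boards are equivalent: they have the same words of every length `k ≥ 2`. -/
def Equivalent {n : ℕ} (B B' : Board n) : Prop := ∀ k, 2 ≤ k → words k B = words k B'

/-- corner cells -/
def IsCorner {n : ℕ} (c : Fin n × Fin n) : Prop :=
  ((c.1 : ℕ) = 0 ∨ (c.1 : ℕ) + 1 = n) ∧ ((c.2 : ℕ) = 0 ∨ (c.2 : ℕ) + 1 = n)

/-- boundary cells -/
def IsBoundary {n : ℕ} (c : Fin n × Fin n) : Prop :=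
  ((c.1 : ℕ) = 0 ∨ (c.1 : ℕ) + 1 = n) ∨ ((c.2 : ℕ) = 0 ∨ (c.2 : ℕ) + 1 = n)

/-- the two cells share an edge -/
def ShareEdge {n : ℕ} (a b : Fin n × Fin n) : Prop :=
  (a.1 = b.1 ∧ ((a.2 : ℕ) + 1 = b.2 ∨ (b.2 : ℕ) + 1 = a.2)) ∨
    (a.2 = b.2 ∧ ((a.1 : ℕ) + 1 = b.1 ∨ (b.1 : ℕ) + 1 = a.1))

instance {n : ℕ} (c : Fin n × Fin n) : Decidable (IsCorner c) := by unfold IsCorner; infer_instance
instance {n : ℕ} (c : Fin n × Fin n) : Decidable (IsBoundary c) := by
  unfold IsBoundary; infer_instance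
instance {n : ℕ} (a b : Fin n × Fin n) : Decidable (ShareEdge a b) := by
  unfold ShareEdge; infer_instance

/-- `B'` is a corner-side swap of `B`: the labels in a corner cell and in a boundary cell which is
not a corner and shares an edge with that corner are exchanged. -/
def IsCornerSideSwap {n : ℕ} (B B' : Board n) : Prop :=
  ∃ c s : Fin n × Fin n, IsCorner c ∧ IsBoundary s ∧ ¬ IsCorner s ∧ ShareEdge c s ∧
    B' = (Equiv.swap c s).trans B

end Pool.Agent.Q180.KB
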