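import Pool.Agent.Q180.KB.Count

/-!
# The two counts
-/

set_option autoImplicit false

namespace Pool.Agent.Q180.KB

/-- common adjacencies for the swap of the cells (0, 0) and (0, 1) -/
def t1 : List (List ℕ) := [[1, 4, 5], [0, 4, 5], [3, 5, 6, 7], [2, 6, 7], [0, 1, 5, 8, 9], [0, 1, 2, 4, 6, 8, 9, 10], [2, 3, 5, 7, 9, 10, 11], [2, 3, 6, 10, 11], [4, 5, 9, 12, 13], [4, 5, 6, 8, 10, 12, 13, 14], [5, 6, 7, 9, 11, 13, 14, 15], [6, 7, 10, 14, 15], [8, 9, 13], [8, 9, 10, 12, 14], [9, 10, 11, 13, 15], [10, 11, 14]]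

/-- common adjacencies for the swap of the cells (0, 1) and (1, 1) -/
def t2 : List (List ℕ) := [[1, 4, 5], [0, 2, 4, 5, 6], [1, 3, 5, 6, 7], [2, 6, 7], [0, 1, 5, 8, 9], [0, 1, 2, 4, 6], [1, 2, 3, 5, 7, 9, 10, 11], [2, 3, 6, 10, 11], [4, 9, 12, 13], [4, 6, 8, 10, 12, 13, 14], [6, 7, 9, 11, 13, 14, 15], [6, 7, 10, 14, 15], [8, 9, 13], [8, 9, 10, 12, 14], [9, 10, 11, 13, 15], [10, 11, 14]]

theorem comp_t1 : comp t1 = 109844 := by decide +kernel

theorem comp_t2 : comp t2 = 158224 := by decide +kernel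

theorem good_t1 : Good t1 := by decide +kernel

theorem good_t2 : Good t2 := by decide +kernel

theorem ok_t1 : TableOK t1 (0, 0) (0, 1) := by decide +kernel

theorem ok_t2 : TableOK t2 (0, 1) (1, 1) := by decide +kernel

/-- the symmetries of the grid: reflections and the exchange of the coordinates -/
def sym (a b c : Bool) : Cell ≃ Cell where
  toFun x :=
    let y := (if a then x.1.rev else x.1, if b then x.2.rev else x.2)
    if c then (y.2, y.1) else y
  invFun x :=
    let y := if c then (x.2, x.1) else x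
    (if a then y.1.rev else y.1, if b then y.2.rev else y.2)
  left_inv x := by cases a <;> cases b <;> cases c <;> simp
  right_inv x := by cases a <;> cases b <;> cases c <;> simp

theorem sym_adj : ∀ a b c : Bool, ∀ x y : Cell, Adj (sym a b c x) (sym a b c y) ↔ Adj x y := by
  decide +kernel

theorem corner_cases : ∀ c s : Cell, IsCorner c → IsBoundary s → ¬ IsCorner s → ShareEdge c s →
    ∃ a b d : Bool, c = sym a b d (0, 0) ∧ s = sym a b d (0, 1) := by decide +kernel

theorem card_corner (c s : Cell) (h1 : IsCorner c) (h2 : IsBoundary s) (h3 : ¬ IsCorner s)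
    (h4 : ShareEdge c s) : (A c s).ncard = 109844 := by
  obtain ⟨a, b, d, rfl, rfl⟩ := corner_cases c s h1 h2 h3 h4
  rw [A_symm (sym a b d) (sym_adj a b d), A_card good_t1 ok_t1, comp_t1]

theorem card_other : (A (0, 1) (1, 1)).ncard = 158224 := by
  rw [A_card good_t2 ok_t2, comp_t2]

theorem not_equiv (B : Board 4) :
    ¬ Equivalent B ((Equiv.swap ((0, 1) : Cell) (1, 1)).trans B) := by
  intro h
  have h2 := h 2 le_rfl
  have hmem : (![B (1, 1), B (2, 1)] : Fin 2 → Fin (4 ^ 2)) ∈ words 2 B := by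
    constructor
    · intro i j hij
      fin_cases i <;> fin_cases j
      · rfl
      · exact absurd (B.injective hij) (by decide)
      · exact absurd (B.injective hij) (by decide)
      · rfl
    · intro i hi
      obtain rfl : i = 0 := by omega
      show Adj (B.symm (B (1, 1))) (B.symm (B (2, 1)))
      rw [Equiv.symm_apply_apply, Equiv.symm_apply_apply]
      decide
  rw [h2] at hmem
  have := hmem.2 0 (by norm_num)
  change Adj (((Equiv.swap ((0, 1) : Cell) (1, 1)).trans B).symm (B (1, 1)))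
    (((Equiv.swap ((0, 1) : Cell) (1, 1)).trans B).symm (B (2, 1))) at this
  rw [Equiv.symm_trans_apply, Equiv.symm_trans_apply, Equiv.symm_swap,
    Equiv.symm_apply_apply, Equiv.symm_apply_apply] at this
  exact absurd this (by decide)

end Pool.Agent.Q180.KB
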